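import Mathlib

/-!
Definitions for MP_fd87b4_nt (weakly global p-adic points on the projective line minus a divisor).

`Om` is an algebraic closure of the field of rational functions in one variable t over the
rationals and `G` its Galois group; G is an extension of the absolute Galois group of the rationals
by the geometric Galois group `geo`.  The étale fundamental group of the projective line (over the
algebraic numbers) minus the roots of f is the quotient of `geo` by the stabilisers (inertia
groups) of the places of `Om` above the points which are not roots of f.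
-/

open scoped Pointwise Polynomial

noncomputable section

namespace Y680.V

/-! ### Unipotent local systems and paths -/

/-- The Kronecker product of two square matrices, indexed lexicographically. -/
def kron {K : Type} [Field K] {m n : ℕ} (A : Matrix (Fin m) (Fin m) K)
    (B : Matrix (Fin n) (Fin n) K) : Matrix (Fin (m * n)) (Fin (m * n)) K :=
  fun i j => A i.divNat j.divNat * B i.modNat j.modNat

theorem kron_eq {K : Type} [Field K] {m n : ℕ} (A : Matrix (Fin m) (Fin m) K)
    (B : Matrix (Fin n) (Fin n) K) :
    kron A B = (Matrix.kronecker A B).submatrix finProdFinEquiv.symm finProdFinEquiv.symm := rfl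

theorem kron_one {K : Type} [Field K] (m n : ℕ) :
    kron (1 : Matrix (Fin m) (Fin m) K) (1 : Matrix (Fin n) (Fin n) K) = 1 := by
  rw [kron_eq, Matrix.kronecker, Matrix.one_kronecker_one, Matrix.submatrix_one_equiv]

theorem kron_mul {K : Type} [Field K] {m n : ℕ} (A A' : Matrix (Fin m) (Fin m) K)
    (B B' : Matrix (Fin n) (Fin n) K) : kron (A * A') (B * B') = kron A B * kron A' B' := by
  rw [kron_eq, kron_eq, kron_eq, Matrix.submatrix_mul_equiv]
  congr 1
  exact Matrix.mul_kronecker_mul A A' B B'

/-- A unipotent local system of rank `r`: a continuous homomorphism from the group `Γ` to the upper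
unitriangular matrices of size `r` over the `p`-adic numbers, trivial on the elements of `J`. -/
structure LocSys (p : ℕ) [Fact p.Prime] {G : Type} [Group G] [TopologicalSpace G]
    (Γ : Subgroup G) (J : Set G) where
  /-- the rank -/
  r : ℕ
  /-- the representation -/
  rho : Γ →* Matrix (Fin r) (Fin r) ℚ_[p]
  cont : ∀ i j, Continuous fun γ : Γ => rho γ i j
  diag : ∀ γ i, rho γ i i = 1
  low : ∀ γ i j, j < i → rho γ i j = 0
  unram : ∀ γ : Γ, (γ : G) ∈ J → rho γ = 1

section

variable {p : ℕ} [Fact p.Prime] {G : Type} [Group G] [TopologicalSpace G] {Γ : Subgroup G}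
  {J : Set G}

namespace LocSys

theorem unit_cont (i j : Fin 1) :
    Continuous fun γ : Γ => (1 : Γ →* Matrix (Fin 1) (Fin 1) ℚ_[p]) γ i j := continuous_const

theorem unit_diag (γ : Γ) (i : Fin 1) : (1 : Γ →* Matrix (Fin 1) (Fin 1) ℚ_[p]) γ i i = 1 := by
  simp

theorem unit_low (γ : Γ) (i j : Fin 1) (h : j < i) :
    (1 : Γ →* Matrix (Fin 1) (Fin 1) ℚ_[p]) γ i j = 0 := by
  omega

/-- the trivial local system of rank one -/
def unit : LocSys p Γ J where
  r := 1
  rho := 1
  cont := unit_cont
  diag := unit_diag
  low := unit_low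
  unram := fun _ _ => rfl

/-- the tensor product of two representations -/
def trho {m n : ℕ} (ρ : Γ →* Matrix (Fin m) (Fin m) ℚ_[p])
    (ρ' : Γ →* Matrix (Fin n) (Fin n) ℚ_[p]) :
    Γ →* Matrix (Fin (m * n)) (Fin (m * n)) ℚ_[p] where
  toFun γ := kron (ρ γ) (ρ' γ)
  map_one' := by rw [map_one, map_one, kron_one]
  map_mul' γ δ := by rw [map_mul, map_mul, kron_mul]

theorem tensor_cont (S T : LocSys p Γ J) (i j : Fin (S.r * T.r)) :
    Continuous fun γ : Γ => trho S.rho T.rho γ i j :=
  (S.cont _ _).mul (T.cont _ _)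

theorem tensor_diag (S T : LocSys p Γ J) (γ : Γ) (i : Fin (S.r * T.r)) :
    trho S.rho T.rho γ i i = 1 := by
  change S.rho γ _ _ * T.rho γ _ _ = 1
  rw [S.diag, T.diag, one_mul]

theorem tensor_low (S T : LocSys p Γ J) (γ : Γ) (i j : Fin (S.r * T.r)) (h : j < i) :
    trho S.rho T.rho γ i j = 0 := by
  change S.rho γ _ _ * T.rho γ _ _ = 0
  rcases lt_trichotomy j.divNat i.divNat with h1 | h1 | h1
  · rw [S.low γ _ _ h1, zero_mul]
  · rw [T.low γ, mul_zero]
    rw [Fin.lt_def] at h ⊢
    have h2 := congrArg Fin.val h1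
    simp only [Fin.coe_divNat, Fin.coe_modNat] at h2 ⊢
    have e1 := Nat.div_add_mod (i : ℕ) T.r
    have e2 := Nat.div_add_mod (j : ℕ) T.r
    rw [h2] at e2
    omega
  · exfalso
    rw [Fin.lt_def] at h h1
    simp only [Fin.coe_divNat] at h1
    have := Nat.div_le_div_right (c := T.r) h.le
    omega

theorem tensor_unram (S T : LocSys p Γ J) (γ : Γ) (h : (γ : G) ∈ J) :
    trho S.rho T.rho γ = 1 := by
  change kron (S.rho γ) (T.rho γ) = 1
  rw [S.unram γ h, T.unram γ h, kron_one]

/-- the tensor product of two local systems -/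
def tensor (S T : LocSys p Γ J) : LocSys p Γ J where
  r := S.r * T.r
  rho := trho S.rho T.rho
  cont := tensor_cont S T
  diag := tensor_diag S T
  low := tensor_low S T
  unram := tensor_unram S T

/-- `S` has level `n`: the (n+1)-st term of the descending central series of `Γ` acts trivially.
Local systems of level `n` are the representations of the quotient `U_n` of the unipotent
fundamental group. -/
def Level (S : LocSys p Γ J) (n : ℕ) : Prop :=
  ∀ γ : Γ, (γ : G) ∈ Γ.lowerCentralSeries n → S.rho γ = 1

/-- `s` is a morphism from `S` to `T` above conjugation by `g` (a morphism from the pull-back of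
`S` by `g` to `T`). -/
def Semi (g : G) (S T : LocSys p Γ J) (s : Matrix (Fin T.r) (Fin S.r) ℚ_[p]) : Prop :=
  ∀ γ δ : Γ, (δ : G) = g * γ * g⁻¹ → s * S.rho γ = T.rho δ * s

end LocSys

/-- A family of transports: to a local system and geometric points above x and above y it assigns
a square matrix. -/
abbrev Trans (p : ℕ) [Fact p.Prime] {G : Type} [Group G] [TopologicalSpace G] (Γ : Subgroup G)
    (J : Set G) (E E' : Type) : Type :=
  ∀ S : LocSys p Γ J, E → E' → Matrix (Fin S.r) (Fin S.r) ℚ_[p]

/-- Let `X` be the set of geometric points above a point x, and `X'` the set of geometric points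
above a point y, with actions `a`, `a'` of `Γ`.  The fibre of a local system `S` at x is the space
of equivariant functions from `X` to the space of column vectors of length `S.r`.  `h` is a point,
over the `p`-adic numbers, of the torsor of unipotent paths of level `n` from x to y: an
isomorphism of tensor functors, on local systems of level `n`, from the fibre functor at x to the
fibre functor at y. -/
structure IsPath (n : ℕ) {E E' : Type} (a : Γ → E → E) (a' : Γ → E' → E') (X : Set E)
    (X' : Set E') (h : Trans p Γ J E E') : Prop where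
  bij : ∀ S : LocSys p Γ J, S.Level n → ∀ v ∈ X, ∀ w ∈ X', IsUnit (h S v w)
  equiv : ∀ S : LocSys p Γ J, S.Level n → ∀ v ∈ X, ∀ w ∈ X', ∀ γ δ : Γ,
    h S (a γ v) (a' δ w) * S.rho γ = S.rho δ * h S v w
  nat : ∀ S T : LocSys p Γ J, S.Level n → T.Level n → ∀ s : Matrix (Fin T.r) (Fin S.r) ℚ_[p],
    LocSys.Semi 1 S T s → ∀ v ∈ X, ∀ w ∈ X', s * h S v w = h T v w * s
  tens : ∀ S T : LocSys p Γ J, S.Level n → T.Level n → ∀ v ∈ X, ∀ w ∈ X',
    h (S.tensor T) v w = kron (h S v w) (h T v w)
  unit : ∀ v ∈ X, ∀ w ∈ X', h LocSys.unit v w = 1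

/-- `c` is a continuous 1-cocycle of `G/Γ` with values in the group of unipotent paths of level `n`
from a point to itself; `X` is the set of geometric points above that point. -/
structure IsCocycle (n : ℕ) {E : Type} [MulAction G E] (X : Set E)
    (c : G → Trans p Γ J E E) : Prop where
  path : ∀ g : G, IsPath n (fun γ v => (γ : G) • v) (fun γ v => (γ : G) • v) X X (c g)
  infl : ∀ γ : Γ, ∀ S : LocSys p Γ J, S.Level n → ∀ v ∈ X, c γ S v v = 1
  mul : ∀ g g' : G, ∀ S T : LocSys p Γ J, S.Level n → T.Level n →
    ∀ s : Matrix (Fin T.r) (Fin S.r) ℚ_[p], LocSys.Semi g S T s → ∀ u ∈ X, ∀ v ∈ X, ∀ w ∈ X,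
    c (g * g') T (g • u) w * s = c g T (g • v) w * s * c g' S u v
  cont : ∀ S : LocSys p Γ J, S.Level n → ∀ v ∈ X, ∀ w ∈ X, ∀ i j,
    Continuous fun g : G => c g S v w i j

end

/-! ### Places -/

section

variable {K Om C : Type} [Field K] [Field Om] [Algebra K Om] [Field C]

/-- A place of the field `Om` with values in the field `C`. -/
structure Place (Om C : Type) [Field Om] [Field C] where
  /-- the valuation ring -/
  O : ValuationSubring Om
  /-- the values -/
  φ : O →+* C
  /-- the kernel is the maximal ideal -/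
  ker : ∀ x : O, φ x = 0 ↔ (x : Om) ∈ O.nonunits

theorem back_mem (g : Om ≃ₐ[K] Om) (O : ValuationSubring Om) (x : (g • O : ValuationSubring Om)) :
    ((g⁻¹ : Om ≃ₐ[K] Om) : Om →+* Om).comp (g • O : ValuationSubring Om).subtype x ∈ O := by
  have h := ValuationSubring.mem_pointwise_smul_iff_inv_smul_mem.1 x.2
  exact h

/-- the map induced by the inverse of `g` -/
def back (g : Om ≃ₐ[K] Om) (O : ValuationSubring Om) : (g • O : ValuationSubring Om) →+* O :=
  (((g⁻¹ : Om ≃ₐ[K] Om) : Om →+* Om).comp (g • O : ValuationSubring Om).subtype).codRestrict O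
    (back_mem g O)

theorem move_ker (g : Om ≃ₐ[K] Om) (σ : C →+* C) (w : Place Om C)
    (x : (g • w.O : ValuationSubring Om)) :
    (σ.comp (w.φ.comp (back g w.O))) x = 0 ↔ (x : Om) ∈ (g • w.O).nonunits := by
  rw [RingHom.comp_apply, map_eq_zero, RingHom.comp_apply, w.ker]
  have h1 : ((back g w.O x : w.O) : Om) = g⁻¹ (x : Om) := rfl
  rw [h1, ValuationSubring.mem_nonunits_iff_or, ValuationSubring.mem_nonunits_iff_or]
  have h2 : g⁻¹ (x : Om) = g⁻¹ • (x : Om) := rfl
  have h3 : (g⁻¹ (x : Om))⁻¹ = g⁻¹ • ((x : Om)⁻¹) := by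
    rw [AlgEquiv.smul_def, map_inv₀]
  rw [h3, ← ValuationSubring.mem_pointwise_smul_iff_inv_smul_mem]
  simp

/-- the place `w` composed with the inverse of `g` and with `σ` -/
def Place.move (g : Om ≃ₐ[K] Om) (σ : C →+* C) (w : Place Om C) : Place Om C where
  O := g • w.O
  φ := σ.comp (w.φ.comp (back g w.O))
  ker := move_ker g σ w

end

/-! ### The projective line -/

section

variable (Om : Type) [Field Om] [Algebra ℚ Om] [Algebra (RatFunc ℚ) Om]

/-- the coordinate of the projective line -/
def tt : Om := algebraMap (RatFunc ℚ) Om RatFunc.X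

/-- the geometric Galois group: the automorphisms of `Om` which fix the coordinate and all
algebraic numbers -/
def geo : Subgroup (Om ≃ₐ[RatFunc ℚ] Om) :=
  fixingSubgroup (Om ≃ₐ[RatFunc ℚ] Om) {z : Om | IsAlgebraic ℚ z}

/-- the places (valuation rings) of `Om` above the point at infinity -/
def infPlaces : Set (ValuationSubring Om) :=
  {v | (∀ q : ℚ, algebraMap ℚ Om q ∈ v) ∧ (tt Om)⁻¹ ∈ v.nonunits}

/-- the places (valuation rings) of `Om` above the point with coordinate `a` -/
def finPlaces (a : Om) : Set (ValuationSubring Om) :=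
  {v | (∀ q : ℚ, algebraMap ℚ Om q ∈ v) ∧ tt Om - a ∈ v.nonunits}

/-- the automorphisms which stabilise some place above a point of the projective line which is not
a root of `f` -/
def inert (f : ℤ[X]) : Set (Om ≃ₐ[RatFunc ℚ] Om) :=
  {g | ∃ v : ValuationSubring Om, g • v = v ∧ (v ∈ infPlaces Om ∨
    ∃ a : Om, IsAlgebraic ℚ a ∧ Polynomial.aeval a f ≠ 0 ∧ v ∈ finPlaces Om a)}

variable {Om} {C : Type} [Field C]

/-- the places with values in `C` which extend the embedding `ι` of the algebraic numbers and are
above the point `z` of the projective line (`none` is the point at infinity) -/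
def above (ι : algebraicClosure ℚ Om →+* C) (z : Option C) : Set (Place Om C) :=
  {w | (∀ x : algebraicClosure ℚ Om, ∃ h : (x : Om) ∈ w.O, w.φ ⟨x, h⟩ = ι x) ∧
    (z = none → (tt Om)⁻¹ ∈ w.O.nonunits) ∧
    ∀ a : C, z = some a → ∃ h : tt Om ∈ w.O, w.φ ⟨tt Om, h⟩ = a}

/-- `h` is a point of the torsor of unipotent paths of level `n` from infinity to `z`; the geometric
points above `z` are the places with values in `C` extending the embedding `ι`. -/
def IsPathTo {p : ℕ} [Fact p.Prime] {f : ℤ[X]} (n : ℕ) (ι : algebraicClosure ℚ Om →+* C)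
    (z : Option C) (h : Trans p (geo Om) (inert Om f) (ValuationSubring Om) (Place Om C)) : Prop :=
  IsPath n (fun γ v => (γ : Om ≃ₐ[RatFunc ℚ] Om) • v)
    (fun γ w => w.move (γ : Om ≃ₐ[RatFunc ℚ] Om) (RingHom.id C)) (infPlaces Om) (above ι z) h

/-- `Lies k n c z`: the restriction of the cocycle `c` (with values in the unipotent paths of level
`n` from infinity to infinity) to the decomposition groups of all embeddings of the algebraic
numbers in the algebraic closure `C` of the field `k` is the class of the torsor of unipotent paths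
of level `n` from infinity to the point `z` over `k`. -/
def Lies {p : ℕ} [Fact p.Prime] {f : ℤ[X]} (k : Type) [Field k] [Algebra k C] (n : ℕ)
    (c : (Om ≃ₐ[RatFunc ℚ] Om) →
      Trans p (geo Om) (inert Om f) (ValuationSubring Om) (ValuationSubring Om))
    (z : Option k) : Prop :=
  ∀ ι : algebraicClosure ℚ Om →+* C,
    ∃ h : Trans p (geo Om) (inert Om f) (ValuationSubring Om) (Place Om C),
      IsPathTo n ι (z.map (algebraMap k C)) h ∧
      ∀ (g : Om ≃ₐ[RatFunc ℚ] Om) (σ : C ≃ₐ[k] C),
        (∀ a b : algebraicClosure ℚ Om, (b : Om) = g (a : Om) → σ (ι a) = ι b) →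
        ∀ S T : LocSys p (geo Om) (inert Om f), S.Level n → T.Level n →
        ∀ s : Matrix (Fin T.r) (Fin S.r) ℚ_[p], LocSys.Semi g S T s →
        ∀ u ∈ infPlaces Om, ∀ v ∈ infPlaces Om, ∀ w ∈ above ι (z.map (algebraMap k C)),
        h T v (w.move g (σ : C →+* C)) * (c g T (g • u) v * s) = s * h S u w

end

/-! ### Integral points and weakly global points -/

/-- the value at (x, y) of the binary form of degree `f.natDegree` attached to `f` -/
def form (f : ℤ[X]) {R : Type} [CommRing R] (x y : R) : R :=
  ∑ i ∈ Finset.range (f.natDegree + 1), (f.coeff i : R) * x ^ i * y ^ (f.natDegree - i)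

/-- `z` is the point (x : y) of the projective line over `k` -/
def IsPt {k : Type} [Field k] (z : Option k) (x y : k) : Prop :=
  (y = 0 ∧ z = none) ∨ (y ≠ 0 ∧ z = some (x / y))

/-- X(Z_l), for X the projective line over the integers minus the divisor of the form of `f` -/
def intPtsAt (f : ℤ[X]) (l : ℕ) [Fact l.Prime] : Set (Option ℚ_[l]) :=
  {z | ∃ x y : ℤ_[l], IsUnit (form f x y) ∧ IsPt z (x : ℚ_[l]) (y : ℚ_[l])}

/-- X(Z), as a subset of the points over the `p`-adic numbers -/
def intPts (f : ℤ[X]) (p : ℕ) [Fact p.Prime] : Set (Option ℚ_[p]) :=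
  {z | ∃ x y : ℤ, IsUnit (form f x y) ∧ IsPt z (x : ℚ_[p]) (y : ℚ_[p])}

/-- The weakly global points of level `n`, X(Z_p)_n: the points `z` of X(Z_p) whose class is the
restriction of a global class (of a continuous cocycle `c` with values in U_n) which, at every
prime `l` other than `p`, is the class of a point of X(Z_l). -/
def weaklyGlobal (Om : Type) [Field Om] [Algebra ℚ Om] [Algebra (RatFunc ℚ) Om] (f : ℤ[X]) (p : ℕ)
    [Fact p.Prime] (n : ℕ) : Set (Option ℚ_[p]) :=
  {z | z ∈ intPtsAt f p ∧ ∃ c : (Om ≃ₐ[RatFunc ℚ] Om) →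
      Trans p (geo Om) (inert Om f) (ValuationSubring Om) (ValuationSubring Om),
      IsCocycle n (infPlaces Om) c ∧ Lies (C := AlgebraicClosure ℚ_[p]) ℚ_[p] n c z ∧
      ∀ (l : ℕ) [Fact l.Prime], l ≠ p → ∃ z' ∈ intPtsAt f l,
        Lies (C := AlgebraicClosure ℚ_[l]) ℚ_[l] n c z'}

/-- Admissible data: `f` is monic of degree at least 3 and has distinct roots, `p` is an odd prime
and the roots of `f` stay distinct modulo `p`.  The removed divisor is the zero scheme D of the
form of `f`; it is reduced and horizontal with at least 3 complex points, the point (1 : 0) is an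
integral point of the complement, and p is a prime of good reduction. -/
structure Admissible (f : ℤ[X]) (p : ℕ) : Prop where
  prime : p.Prime
  odd : p ≠ 2
  monic : f.Monic
  deg : 3 ≤ f.natDegree
  sep : (f.map (Int.castRingHom ℚ)).Separable
  good : (f.map (Int.castRingHom (ZMod p))).Separable

end Y680.V
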