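import Pool.Agent.Y680.V.Defs

/-! Étale paths and their cocycles. -/

open scoped Pointwise Topology

noncomputable section

namespace Y680.V

variable {p : ℕ} [Fact p.Prime] {G : Type} [Group G] [TopologicalSpace G] {Γ : Subgroup G}
  {J : Set G} {E : Type} [MulAction G E]

/-- conjugation -/
def cjg (hn : Γ.Normal) (g : G) (γ : Γ) : Γ := ⟨g * γ * g⁻¹, hn.conj_mem γ γ.2 g⟩

/-- the representation, with values in units -/
def LocSys.R (S : LocSys p Γ J) : Γ →* (Matrix (Fin S.r) (Fin S.r) ℚ_[p])ˣ := S.rho.toHomUnits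

theorem LocSys.R_coe (S : LocSys p Γ J) (γ : Γ) :
    (S.R γ : Matrix (Fin S.r) (Fin S.r) ℚ_[p]) = S.rho γ := rfl

theorem LocSys.rho_eq_of_R (S : LocSys p Γ J) {γ δ : Γ} (h : S.R γ = S.R δ) :
    S.rho γ = S.rho δ := by
  rw [← S.R_coe, ← S.R_coe, h]

theorem LocSys.R_of_rho (S : LocSys p Γ J) {γ δ : Γ} (h : S.rho γ = S.rho δ) :
    S.R γ = S.R δ := Units.ext h

/-- stabilisers act trivially -/
theorem LocSys.R_congr (S : LocSys p Γ J) {X : Set E} (hX : ∀ g : G, ∀ v ∈ X, g • v = v → g ∈ J)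
    {v : E} (hv : v ∈ X) {γ δ : Γ} (h : (γ : G) • v = (δ : G) • v) : S.R γ = S.R δ := by
  apply S.R_of_rho
  have h1 : S.rho (δ⁻¹ * γ) = 1 := by
    apply S.unram
    apply hX _ v hv
    rw [Subgroup.coe_mul, mul_smul, h, Subgroup.coe_inv, inv_smul_smul]
  have h2 : γ = δ * (δ⁻¹ * γ) := by group
  rw [h2, map_mul, h1, mul_one]

/-- the étale path -/
def et (cv cw : E → Γ) : Trans p Γ J E E := fun S v w => S.rho (cw w * (cv v)⁻¹)

/-- the cocycle of the étale path -/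
def co (v0 w0 : E) (cv cw : E → Γ) : G → Trans p Γ J E E :=
  fun g S v v' => S.rho (cv v' * (cw (g • w0))⁻¹ * cv (g • v0) * (cv v)⁻¹)

/-- assumptions on the two points -/
structure Pts (Γ : Subgroup G) (J : Set G) (X Y : Set E) (v0 w0 : E) (cv cw : E → Γ) : Prop where
  hn : Γ.Normal
  X1 : ∀ g : G, ∀ v ∈ X, g • v ∈ X
  Y1 : ∀ g : G, ∀ v ∈ Y, g • v ∈ Y
  X2 : ∀ g : G, ∀ v ∈ X, g • v = v → g ∈ J
  Y2 : ∀ g : G, ∀ v ∈ Y, g • v = v → g ∈ J
  hv0 : v0 ∈ X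
  hw0 : w0 ∈ Y
  hcv : ∀ v ∈ X, (cv v : G) • v0 = v
  hcw : ∀ w ∈ Y, (cw w : G) • w0 = w

variable {X Y : Set E} {v0 w0 : E} {cv cw : E → Γ}

theorem R_c {v0 : E} {cv : E → Γ} {X : Set E} (X1 : ∀ g : G, ∀ v ∈ X, g • v ∈ X)
    (X2 : ∀ g : G, ∀ v ∈ X, g • v = v → g ∈ J) (hv0 : v0 ∈ X)
    (hcv : ∀ v ∈ X, (cv v : G) • v0 = v) (S : LocSys p Γ J) (γ : Γ) {v : E} (hv : v ∈ X) :
    S.R (cv ((γ : G) • v)) = S.R γ * S.R (cv v) := by
  rw [← map_mul]
  apply S.R_congr X2 hv0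
  rw [hcv _ (X1 _ _ hv), Subgroup.coe_mul, mul_smul, hcv v hv]

/-- behaviour of the chosen elements under the big group -/
theorem R_cg {v0 : E} {cv : E → Γ} {X : Set E} (hn : Γ.Normal) (X1 : ∀ g : G, ∀ v ∈ X, g • v ∈ X)
    (X2 : ∀ g : G, ∀ v ∈ X, g • v = v → g ∈ J) (hv0 : v0 ∈ X)
    (hcv : ∀ v ∈ X, (cv v : G) • v0 = v) (S : LocSys p Γ J) (g : G) {v : E} (hv : v ∈ X) :
    S.R (cv (g • v)) = S.R (cjg hn g (cv v)) * S.R (cv (g • v0)) := by
  rw [← map_mul]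
  apply S.R_congr X2 hv0
  rw [hcv _ (X1 _ _ hv), Subgroup.coe_mul, mul_smul, hcv _ (X1 _ _ hv0)]
  change g • v = (g * (cv v : G) * g⁻¹) • g • v0
  rw [mul_smul, mul_smul, inv_smul_smul, hcv v hv]

theorem isPath_et (H : Pts Γ J X Y v0 w0 cv cw) (n : ℕ) :
    IsPath n (fun γ v => (γ : G) • v) (fun γ v => (γ : G) • v) X Y
      (et (p := p) (J := J) cv cw) where
  bij := fun S _ v _ w _ => ⟨S.R (cw w * (cv v)⁻¹), rfl⟩
  equiv := by
    intro S _ v hv w hw γ δ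
    change S.rho (cw ((δ : G) • w) * (cv ((γ : G) • v))⁻¹) * S.rho γ =
      S.rho δ * S.rho (cw w * (cv v)⁻¹)
    rw [← map_mul, ← map_mul]
    apply S.rho_eq_of_R
    rw [map_mul, map_mul, map_inv, R_c H.X1 H.X2 H.hv0 H.hcv S γ hv,
      R_c H.Y1 H.Y2 H.hw0 H.hcw S δ hw, map_mul, map_mul, map_inv]
    group
  nat := by
    intro S T _ _ s hs v _ w _
    exact hs _ _ (by rw [one_mul, inv_one, mul_one])
  tens := fun S T _ _ v _ w _ => rfl
  unit := fun v _ w _ => rfl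

/-- the relation between the étale path and its cocycle -/
theorem et_co (H : Pts Γ J X Y v0 w0 cv cw) (g : G) (S T : LocSys p Γ J)
    (s : Matrix (Fin T.r) (Fin S.r) ℚ_[p]) (hs : LocSys.Semi g S T s) {u v w : E} (hu : u ∈ X)
    (hw : w ∈ Y) :
    et cv cw T v (g • w) * (co v0 w0 cv cw g T (g • u) v * s) = s * et cv cw S u w := by
  change T.rho (cw (g • w) * (cv v)⁻¹) *
    (T.rho (cv v * (cw (g • w0))⁻¹ * cv (g • v0) * (cv (g • u))⁻¹) * s) =
      s * S.rho (cw w * (cv u)⁻¹)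
  rw [hs (cw w * (cv u)⁻¹) (cjg H.hn g (cw w * (cv u)⁻¹)) rfl, ← Matrix.mul_assoc, ← map_mul]
  congr 1
  apply T.rho_eq_of_R
  have e0 : cjg H.hn g (cw w * (cv u)⁻¹) = cjg H.hn g (cw w) * (cjg H.hn g (cv u))⁻¹ := by
    apply Subtype.ext
    change g * ((cw w : G) * (cv u : G)⁻¹) * g⁻¹ =
      (g * (cw w : G) * g⁻¹) * (g * (cv u : G) * g⁻¹)⁻¹
    group
  rw [e0]
  simp only [map_mul, map_inv]
  rw [R_cg H.hn H.X1 H.X2 H.hv0 H.hcv T g hu, R_cg H.hn H.Y1 H.Y2 H.hw0 H.hcw T g hw]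
  group

theorem isPath_co (H : Pts Γ J X Y v0 w0 cv cw) (n : ℕ) (g : G) :
    IsPath n (fun γ v => (γ : G) • v) (fun γ v => (γ : G) • v) X X
      (co (p := p) (J := J) v0 w0 cv cw g) where
  bij := fun S _ v _ w _ => ⟨S.R _, rfl⟩
  equiv := by
    intro S _ v hv w hw γ δ
    change S.rho (cv ((δ : G) • w) * (cw (g • w0))⁻¹ * cv (g • v0) * (cv ((γ : G) • v))⁻¹) *
      S.rho γ = S.rho δ * S.rho (cv w * (cw (g • w0))⁻¹ * cv (g • v0) * (cv v)⁻¹)
    rw [← map_mul, ← map_mul]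
    apply S.rho_eq_of_R
    simp only [map_mul, map_inv]
    rw [R_c H.X1 H.X2 H.hv0 H.hcv S γ hv, R_c H.X1 H.X2 H.hv0 H.hcv S δ hw]
    group
  nat := by
    intro S T _ _ s hs v _ w _
    exact hs _ _ (by rw [one_mul, inv_one, mul_one])
  tens := fun S T _ _ v _ w _ => rfl
  unit := fun v _ w _ => rfl

theorem co_infl (H : Pts Γ J X Y v0 w0 cv cw) (γ : Γ) (S : LocSys p Γ J) (v : E) :
    co v0 w0 cv cw (γ : G) S v v = 1 := by
  change S.rho (cv v * (cw ((γ : G) • w0))⁻¹ * cv ((γ : G) • v0) * (cv v)⁻¹) = 1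
  rw [← map_one S.rho]
  apply S.rho_eq_of_R
  have h1 : S.R (cv v0) = 1 := by
    rw [← map_one S.R]
    apply S.R_congr H.X2 H.hv0
    rw [H.hcv _ H.hv0, Subgroup.coe_one, one_smul]
  have h2 : S.R (cw w0) = 1 := by
    rw [← map_one S.R]
    apply S.R_congr H.Y2 H.hw0
    rw [H.hcw _ H.hw0, Subgroup.coe_one, one_smul]
  simp only [map_mul, map_inv]
  rw [R_c H.X1 H.X2 H.hv0 H.hcv S γ H.hv0, R_c H.Y1 H.Y2 H.hw0 H.hcw S γ H.hw0, h1, h2, map_one]
  group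

theorem co_mul (H : Pts Γ J X Y v0 w0 cv cw) (g g' : G) (S T : LocSys p Γ J)
    (s : Matrix (Fin T.r) (Fin S.r) ℚ_[p]) (hs : LocSys.Semi g S T s) {u v w : E} (hu : u ∈ X)
    (hv : v ∈ X) :
    co v0 w0 cv cw (g * g') T (g • u) w * s =
      co v0 w0 cv cw g T (g • v) w * s * co v0 w0 cv cw g' S u v := by
  change T.rho (cv w * (cw ((g * g') • w0))⁻¹ * cv ((g * g') • v0) * (cv (g • u))⁻¹) * s =
    T.rho (cv w * (cw (g • w0))⁻¹ * cv (g • v0) * (cv (g • v))⁻¹) * s *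
      S.rho (cv v * (cw (g' • w0))⁻¹ * cv (g' • v0) * (cv u)⁻¹)
  rw [Matrix.mul_assoc (T.rho _) s, hs _ (cjg H.hn g (cv v * (cw (g' • w0))⁻¹ * cv (g' • v0) *
    (cv u)⁻¹)) rfl, ← Matrix.mul_assoc, ← map_mul]
  congr 1
  apply T.rho_eq_of_R
  have e0 : cjg H.hn g (cv v * (cw (g' • w0))⁻¹ * cv (g' • v0) * (cv u)⁻¹) =
      cjg H.hn g (cv v) * (cjg H.hn g (cw (g' • w0)))⁻¹ * cjg H.hn g (cv (g' • v0)) *
        (cjg H.hn g (cv u))⁻¹ := by
    apply Subtype.ext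
    change g * ((cv v : G) * (cw (g' • w0) : G)⁻¹ * (cv (g' • v0) : G) * (cv u : G)⁻¹) * g⁻¹ =
      (g * (cv v : G) * g⁻¹) * (g * (cw (g' • w0) : G) * g⁻¹)⁻¹ *
        (g * (cv (g' • v0) : G) * g⁻¹) * (g * (cv u : G) * g⁻¹)⁻¹
    group
  rw [e0]
  simp only [map_mul, map_inv]
  rw [R_cg H.hn H.X1 H.X2 H.hv0 H.hcv T g hu, R_cg H.hn H.X1 H.X2 H.hv0 H.hcv T g hv,
    mul_smul, mul_smul, R_cg H.hn H.X1 H.X2 H.hv0 H.hcv T g (H.X1 g' v0 H.hv0),
    R_cg H.hn H.Y1 H.Y2 H.hw0 H.hcw T g (H.Y1 g' w0 H.hw0)]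
  group

/-- a function which only depends on the first factor of a decomposition is continuous -/
theorem cont_of_mul {Z : Type*} [TopologicalSpace Z] [ContinuousMul G] [CompactSpace G]
    [T2Space G] (hΓ : IsClosed (Γ : Set G)) {v0 : E} (hs : IsClosed {g : G | g • v0 = v0})
    (hsurj : ∀ g : G, ∃ δ : Γ, (δ : G) • v0 = g • v0) (F : G → Z) (F' : Γ → Z)
    (hF' : Continuous F') (h : ∀ (δ : Γ) (s : G), s • v0 = v0 → F (δ * s) = F' δ) :
    Continuous F := by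
  have : CompactSpace Γ := isCompact_iff_compactSpace.1 hΓ.isCompact
  have : CompactSpace {g : G | g • v0 = v0} := isCompact_iff_compactSpace.1 hs.isCompact
  let m : Γ × {g : G | g • v0 = v0} → G := fun q => (q.1 : G) * (q.2 : G)
  have hm : Continuous m :=
    (continuous_subtype_val.comp continuous_fst).mul (continuous_subtype_val.comp continuous_snd)
  have hms : Function.Surjective m := by
    intro g
    obtain ⟨δ, hδ⟩ := hsurj g
    refine ⟨(δ, ⟨(δ : G)⁻¹ * g, ?_⟩), ?_⟩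
    · change ((δ : G)⁻¹ * g) • v0 = v0
      rw [mul_smul, ← hδ, inv_smul_smul]
    · change (δ : G) * ((δ : G)⁻¹ * g) = g
      group
  have hq : Topology.IsQuotientMap m := Topology.IsQuotientMap.of_surjective_continuous hms hm
  rw [hq.continuous_iff]
  have : F ∘ m = F' ∘ Prod.fst := by
    funext q
    exact h q.1 q.2 q.2.2
  rw [this]
  exact hF'.comp continuous_fst

theorem co_cont [ContinuousMul G] [ContinuousInv G] [CompactSpace G] [T2Space G]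
    (H : Pts Γ J X Y v0 w0 cv cw)
    (hΓ : IsClosed (Γ : Set G)) (hv : IsClosed {g : G | g • v0 = v0})
    (hw : IsClosed {g : G | g • w0 = w0}) (S : LocSys p Γ J) (v w : E) (i j : Fin S.r) :
    Continuous fun g : G => co v0 w0 cv cw g S v w i j := by
  have hrho : Continuous fun γ : Γ => S.rho γ := continuous_matrix S.cont
  have hinv : Continuous fun γ : Γ => γ⁻¹ := by
    apply Continuous.subtype_mk
    exact continuous_subtype_val.inv
  have h1 : Continuous fun g : G => S.rho (cv (g • v0)) := by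
    apply cont_of_mul hΓ hv (fun g => ⟨cv (g • v0), H.hcv _ (H.X1 _ _ H.hv0)⟩) _ _ hrho
    intro δ s hs
    apply S.rho_eq_of_R
    apply S.R_congr H.X2 H.hv0
    rw [H.hcv _ (H.X1 _ _ H.hv0), mul_smul, hs]
  have h2 : Continuous fun g : G => S.rho (cw (g • w0))⁻¹ := by
    apply cont_of_mul hΓ hw (fun g => ⟨cw (g • w0), H.hcw _ (H.Y1 _ _ H.hw0)⟩) _ _
      (hrho.comp hinv)
    intro δ s hs
    change S.rho (cw ((↑δ * s) • w0))⁻¹ = S.rho δ⁻¹
    apply S.rho_eq_of_R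
    rw [map_inv, map_inv]
    congr 1
    apply S.R_congr H.Y2 H.hw0
    rw [H.hcw _ (H.Y1 _ _ H.hw0), mul_smul, hs]
  have h3 : (fun g : G => co v0 w0 cv cw g S v w) = fun g : G =>
      S.rho (cv w) * S.rho (cw (g • w0))⁻¹ * S.rho (cv (g • v0)) * S.rho (cv v)⁻¹ := by
    funext g
    change S.rho (cv w * (cw (g • w0))⁻¹ * cv (g • v0) * (cv v)⁻¹) = _
    rw [map_mul, map_mul, map_mul]
  have h4 : Continuous fun g : G => co v0 w0 cv cw g S v w := by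
    rw [h3]
    exact ((continuous_const.matrix_mul h2).matrix_mul h1).matrix_mul continuous_const
  exact h4.matrix_elem i j

theorem isCocycle_co [ContinuousMul G] [ContinuousInv G] [CompactSpace G] [T2Space G]
    (H : Pts Γ J X Y v0 w0 cv cw)
    (hΓ : IsClosed (Γ : Set G)) (hv : IsClosed {g : G | g • v0 = v0})
    (hw : IsClosed {g : G | g • w0 = w0}) (n : ℕ) :
    IsCocycle (p := p) (J := J) n X (co v0 w0 cv cw) where
  path := isPath_co H n
  infl := fun γ S _ v _ => co_infl H γ S v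
  mul := fun g g' S T _ _ s hs u hu v hv w _ => co_mul H g g' S T s hs hu hv
  cont := fun S _ v _ w _ i j => co_cont H hΓ hv hw S v w i j

end Y680.V
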