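import Pool.Agent.Y680.V.P1

/-! The étale path composed with the inverse of a path which is invariant under a set of elements. -/

open scoped Pointwise Topology

noncomputable section

namespace Y680.V

section mat

variable {K : Type} [Field K] {m n : ℕ}

theorem inv_mul_u {A : Matrix (Fin m) (Fin m) K} (h : IsUnit A) : A⁻¹ * A = 1 :=
  Matrix.nonsing_inv_mul A ((Matrix.isUnit_iff_isUnit_det A).1 h)

theorem mul_inv_u {A : Matrix (Fin m) (Fin m) K} (h : IsUnit A) : A * A⁻¹ = 1 :=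
  Matrix.mul_nonsing_inv A ((Matrix.isUnit_iff_isUnit_det A).1 h)

theorem isUnit_inv {A : Matrix (Fin m) (Fin m) K} (h : IsUnit A) : IsUnit A⁻¹ :=
  ⟨⟨A⁻¹, A, inv_mul_u h, mul_inv_u h⟩, rfl⟩

theorem inv_comm {A : Matrix (Fin m) (Fin m) K} {A' : Matrix (Fin n) (Fin n) K} (h : IsUnit A)
    (h' : IsUnit A') {s : Matrix (Fin n) (Fin m) K} (hs : s * A = A' * s) :
    s * A⁻¹ = A'⁻¹ * s := by
  calc s * A⁻¹ = (A'⁻¹ * A') * s * A⁻¹ := by rw [inv_mul_u h', Matrix.one_mul]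
    _ = A'⁻¹ * (s * A) * A⁻¹ := by rw [hs, Matrix.mul_assoc A'⁻¹ A' s]
    _ = A'⁻¹ * s * (A * A⁻¹) := by simp only [Matrix.mul_assoc]
    _ = A'⁻¹ * s := by rw [mul_inv_u h, Matrix.mul_one]

theorem kron_inv {A : Matrix (Fin m) (Fin m) K} {B : Matrix (Fin n) (Fin n) K} (hA : IsUnit A)
    (hB : IsUnit B) : (kron A B)⁻¹ = kron A⁻¹ B⁻¹ := by
  apply Matrix.inv_eq_right_inv
  rw [← kron_mul, mul_inv_u hA, mul_inv_u hB, kron_one]

end mat

variable {p : ℕ} [Fact p.Prime] {G : Type} [Group G] [TopologicalSpace G] {Γ : Subgroup G}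
  {J : Set G} {E : Type} [MulAction G E] {X Y : Set E} {v0 w0 : E} {cv cw : E → Γ}

/-- the étale path followed by the inverse of the path `h'` -/
def hl (h' : Trans p Γ J E E) (w0 : E) (cv cw : E → Γ) : Trans p Γ J E E :=
  fun S v w => (h' S w w0)⁻¹ * et cv cw S v w0

theorem path_left {n : ℕ} {h : Trans p Γ J E E}
    (hh : IsPath n (fun γ v => (γ : G) • v) (fun γ v => (γ : G) • v) X Y h)
    (S : LocSys p Γ J) (hS : S.Level n) {v w : E} (hv : v ∈ X) (hw : w ∈ Y) (γ : Γ) :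
    h S ((γ : G) • v) w * S.rho γ = h S v w := by
  have := hh.equiv S hS v hv w hw γ 1
  simp only [Subgroup.coe_one, one_smul, map_one, one_mul] at this
  exact this

theorem path_right {n : ℕ} {h : Trans p Γ J E E}
    (hh : IsPath n (fun γ v => (γ : G) • v) (fun γ v => (γ : G) • v) X Y h)
    (S : LocSys p Γ J) (hS : S.Level n) {v w : E} (hv : v ∈ X) (hw : w ∈ Y) (δ : Γ) :
    h S v ((δ : G) • w) = S.rho δ * h S v w := by
  have := hh.equiv S hS v hv w hw 1 δ
  simp only [Subgroup.coe_one, one_smul, map_one, mul_one] at this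
  exact this

theorem isPath_hl (H : Pts Γ J X Y v0 w0 cv cw) {n : ℕ} {h' : Trans p Γ J E E}
    (hh : IsPath n (fun γ v => (γ : G) • v) (fun γ v => (γ : G) • v) X Y h') :
    IsPath n (fun γ v => (γ : G) • v) (fun γ v => (γ : G) • v) X X
      (hl (p := p) (J := J) h' w0 cv cw) where
  bij := fun S hS v hv w hw => (isUnit_inv (hh.bij S hS w hw w0 H.hw0)).mul
    ((isPath_et H n).bij S hS v hv w0 H.hw0)
  equiv := by
    intro S hS v hv w hw γ δ
    change (h' S ((δ : G) • w) w0)⁻¹ * et cv cw S ((γ : G) • v) w0 * S.rho γ =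
      S.rho δ * ((h' S w w0)⁻¹ * et cv cw S v w0)
    have h1 := path_left (isPath_et (p := p) (J := J) H n) S hS hv H.hw0 γ
    have h2 := path_left hh S hS hw H.hw0 δ
    have u1 := hh.bij S hS w hw w0 H.hw0
    have u2 := hh.bij S hS _ (H.X1 δ w hw) w0 H.hw0
    have h3 : (h' S ((δ : G) • w) w0)⁻¹ = S.rho δ * (h' S w w0)⁻¹ := by
      apply Matrix.inv_eq_right_inv
      rw [← mul_assoc, h2, mul_inv_u u1]
    rw [mul_assoc, h1, h3, mul_assoc]
  nat := by
    intro S T hS hT s hs v hv w hw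
    change s * ((h' S w w0)⁻¹ * et cv cw S v w0) = (h' T w w0)⁻¹ * et cv cw T v w0 * s
    have h1 := hh.nat S T hS hT s hs w hw w0 H.hw0
    have h2 := (isPath_et H n).nat S T hS hT s hs v hv w0 H.hw0
    have h3 := inv_comm (hh.bij S hS w hw w0 H.hw0) (hh.bij T hT w hw w0 H.hw0) h1
    rw [← Matrix.mul_assoc, h3, Matrix.mul_assoc, h2, Matrix.mul_assoc]
  tens := by
    intro S T hS hT v hv w hw
    have h1 := hh.tens S T hS hT w hw w0 H.hw0
    have h2 := (isPath_et H n).tens S T hS hT v hv w0 H.hw0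
    refine Eq.trans (congrArg₂ (fun A B : Matrix (Fin (S.r * T.r)) (Fin (S.r * T.r)) ℚ_[p] =>
      A⁻¹ * B) h1 h2) ?_
    change (kron (h' S w w0) (h' T w w0))⁻¹ * kron (et cv cw S v w0) (et cv cw T v w0) =
      kron ((h' S w w0)⁻¹ * et cv cw S v w0) ((h' T w w0)⁻¹ * et cv cw T v w0)
    rw [kron_mul, kron_inv (hh.bij S hS w hw w0 H.hw0) (hh.bij T hT w hw w0 H.hw0)]
  unit := by
    intro v hv w hw
    change (h' LocSys.unit w w0)⁻¹ * et cv cw LocSys.unit v w0 = 1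
    have h2 := (isPath_et (p := p) (J := J) H n).unit v hv w0 H.hw0
    have h1 := hh.unit w hw w0 H.hw0
    refine Eq.trans (congrArg₂ (fun A B : Matrix (Fin 1) (Fin 1) ℚ_[p] => A⁻¹ * B) h1 h2) ?_
    have key : (1 : Matrix (Fin 1) (Fin 1) ℚ_[p])⁻¹ * 1 = 1 := by
      rw [mul_one]
      exact Matrix.inv_eq_right_inv (mul_one 1)
    exact key

/-- The cocycle of the étale path from x to y is, on elements under which the path `h'` from x to y
is invariant, the coboundary of the path `hl` from x to x. -/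
theorem hl_co (H : Pts Γ J X Y v0 w0 cv cw) {n : ℕ} {h' : Trans p Γ J E E}
    (hh : IsPath n (fun γ v => (γ : G) • v) (fun γ v => (γ : G) • v) X Y h') (g : G)
    (S T : LocSys p Γ J) (hS : S.Level n) (hT : T.Level n)
    (s : Matrix (Fin T.r) (Fin S.r) ℚ_[p]) (hs : LocSys.Semi g S T s)
    (hg : ∀ v ∈ X, ∀ w ∈ Y, s * h' S v w = h' T (g • v) (g • w) * s) {u v w : E} (hu : u ∈ X)
    (hv : v ∈ X) (hw : w ∈ X) :
    hl h' w0 cv cw T v (g • w) * (co v0 w0 cv cw g T (g • u) v * s) =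
      s * hl h' w0 cv cw S u w := by
  change (h' T (g • w) w0)⁻¹ * et cv cw T v w0 * (co v0 w0 cv cw g T (g • u) v * s) =
    s * ((h' S w w0)⁻¹ * et cv cw S u w0)
  have hgw0 : g • w0 ∈ Y := H.Y1 g w0 H.hw0
  have hgw : g • w ∈ X := H.X1 g w hw
  -- change of the middle point
  have h1 : (h' T (g • w) w0)⁻¹ * et cv cw T v w0 =
      (h' T (g • w) (g • w0))⁻¹ * et cv cw T v (g • w0) := by
    set δ := cw (g • w0) with hδ
    have e1 : (δ : G) • w0 = g • w0 := H.hcw _ hgw0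
    have e2 := path_right hh T hT hgw H.hw0 δ
    have e3 := path_right (isPath_et (p := p) (J := J) H n) T hT hv H.hw0 δ
    rw [e1] at e2 e3
    rw [e2, e3]
    have u1 := hh.bij T hT _ hgw w0 H.hw0
    have u2 : IsUnit (T.rho δ) := ⟨T.R δ, rfl⟩
    have e4 : (T.rho δ * h' T (g • w) w0)⁻¹ = (h' T (g • w) w0)⁻¹ * (T.rho δ)⁻¹ :=
      Matrix.mul_inv_rev _ _
    rw [e4]
    calc (h' T (g • w) w0)⁻¹ * et cv cw T v w0
        = (h' T (g • w) w0)⁻¹ * ((T.rho δ)⁻¹ * T.rho δ) * et cv cw T v w0 := by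
          rw [inv_mul_u u2, mul_one]
      _ = _ := by simp only [mul_assoc]
  rw [h1, Matrix.mul_assoc, et_co H g S T s hs hu H.hw0, ← Matrix.mul_assoc, ← Matrix.mul_assoc]
  congr 1
  exact (inv_comm (hh.bij S hS w hw w0 H.hw0) (hh.bij T hT _ hgw _ hgw0) (hg w hw w0 H.hw0)).symm

end Y680.V
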