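import Pool.Agent.Y680.V.P2
import Pool.Agent.Y680.W.A11

/-! Comparison of the two notions of local systems (matrices and linear maps). -/

open scoped Pointwise TensorProduct Topology Polynomial

noncomputable section

namespace Y680.V

open Y680.W (GG Gam Qb map_Qb Dec Invt ff0)

/-- the algebraic closure of the function field -/
abbrev Om : Type := Y680.W.Om

theorem mem_geo {g : GG} : g ∈ geo Om ↔ ∀ z : Om, IsAlgebraic ℚ z → g z = z := by
  unfold geo
  rw [mem_fixingSubgroup_iff]
  rfl

theorem geo_eq : geo Om = Gam := by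
  ext g
  rw [mem_geo]
  constructor
  · intro h z hz
    exact h z (mem_algebraicClosure_iff.1 hz)
  · intro h z hz
    exact h z (mem_algebraicClosure_iff.2 hz)

/-- the identification of the two geometric groups -/
def jj : Gam →* geo Om where
  toFun γ := ⟨γ, by rw [geo_eq]; exact γ.2⟩
  map_one' := rfl
  map_mul' _ _ := rfl

theorem jj_coe (γ : Gam) : ((jj γ : geo Om) : GG) = γ := rfl

theorem jj_surj (γ : geo Om) : ∃ δ : Gam, jj δ = γ := ⟨⟨γ, by rw [← geo_eq]; exact γ.2⟩, rfl⟩

theorem continuous_jj : Continuous jj := by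
  apply Continuous.subtype_mk
  exact continuous_subtype_val

/-- the polynomial over the rationals -/
def f0 (f : ℤ[X]) : Polynomial ℚ := f.map (Int.castRingHom ℚ)

variable {p : ℕ} [Fact p.Prime] {f : ℤ[X]}

theorem not_root {a : Qb} (h : ¬ W.IsRoot (f0 f) (some a)) :
    @Polynomial.aeval ℤ Om _ _ (Ring.toIntAlgebra Om) (a : Om) f ≠ 0 := by
  intro h1
  apply h
  change Polynomial.aeval a (f.map (Int.castRingHom ℚ)) = 0
  rw [Polynomial.aeval_def, Polynomial.eval₂_map]
  have h3 : Polynomial.eval₂ (Int.castRingHom Om) (a : Om) f = 0 := h1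
  have h2 : ((Polynomial.eval₂ ((algebraMap ℚ Qb).comp (Int.castRingHom ℚ)) a f : Qb) : Om) =
      Polynomial.eval₂ (Int.castRingHom Om) (a : Om) f := by
    rw [Polynomial.eval₂_eq_sum_range, Polynomial.eval₂_eq_sum_range]
    push_cast
    simp
  rw [← h2] at h3
  exact (ZeroMemClass.coe_eq_zero).1 h3

/-- the representation by linear maps -/
def crho (S : LocSys p (geo Om) (inert Om f)) : Representation ℚ_[p] Gam (Fin S.r → ℚ_[p]) where
  toFun γ := Matrix.toLin' (S.rho (jj γ))
  map_one' := by rw [map_one, map_one, Matrix.toLin'_one]; rfl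
  map_mul' γ δ := by rw [map_mul, map_mul, Matrix.toLin'_mul]; rfl

theorem crho_apply (S : LocSys p (geo Om) (inert Om f)) (γ : Gam) :
    crho S γ = Matrix.toLin' (S.rho (jj γ)) := rfl

theorem crho_cont (S : LocSys p (geo Om) (inert Om f)) (v : Fin S.r → ℚ_[p])
    (l : Module.Dual ℚ_[p] (Fin S.r → ℚ_[p])) : Continuous fun γ : Gam => l (crho S γ v) := by
  have h1 : (fun γ : Gam => l (crho S γ v)) = fun γ : Gam =>
      ∑ i, (∑ j, S.rho (jj γ) i j * v j) * l (Pi.single i 1) := by
    funext γ
    rw [crho_apply, Matrix.toLin'_apply]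
    conv_lhs => rw [← (Pi.basisFun ℚ_[p] (Fin S.r)).sum_repr (Matrix.mulVec (S.rho (jj γ)) v)]
    rw [map_sum]
    refine Finset.sum_congr rfl fun i _ => ?_
    rw [map_smul, smul_eq_mul, Pi.basisFun_apply, Pi.basisFun_repr]
    rfl
  rw [h1]
  refine continuous_finsetSum _ fun i _ => ?_
  refine (continuous_finsetSum _ fun j _ => ?_).mul continuous_const
  exact ((S.cont i j).comp continuous_jj).mul continuous_const

/-- the standard filtration -/
def flt (K : Type) [Field K] (r k : ℕ) : Submodule K (Fin r → K) where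
  carrier := {x | ∀ i : Fin r, r ≤ i + k → x i = 0}
  zero_mem' := fun _ _ => rfl
  add_mem' := by
    intro x y hx hy i hi
    rw [Pi.add_apply, hx i hi, hy i hi, add_zero]
  smul_mem' := by
    intro c x hx i hi
    rw [Pi.smul_apply, hx i hi, smul_zero]

theorem crho_unip (S : LocSys p (geo Om) (inert Om f)) :
    ∃ (m : ℕ) (W : ℕ → Submodule ℚ_[p] (Fin S.r → ℚ_[p])), Antitone W ∧ W 0 = ⊤ ∧ W m = ⊥ ∧
    ∀ i, ∀ w ∈ W i, ∀ γ, crho S γ w - w ∈ W (i + 1) := by
  refine ⟨S.r, flt ℚ_[p] S.r, ?_, ?_, ?_, ?_⟩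
  · intro a b hab x hx i hi
    exact hx i (by omega)
  · rw [eq_top_iff]
    intro x _ i hi
    have := i.2
    omega
  · rw [eq_bot_iff]
    intro x hx
    rw [Submodule.mem_bot]
    funext i
    exact hx i (by omega)
  · intro k x hx γ i hi
    rw [crho_apply, Matrix.toLin'_apply, Pi.sub_apply, Matrix.mulVec, dotProduct]
    have h1 : ∀ j, j ≠ i → S.rho (jj γ) i j * x j = 0 := by
      intro j hj
      rcases lt_trichotomy j i with h | h | h
      · rw [S.low _ _ _ h, zero_mul]
      · exact absurd h hj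
      · rw [hx j, mul_zero]
        rw [Fin.lt_def] at h
        omega
    rw [Finset.sum_eq_single i (fun j _ hj => h1 j hj) (fun h => absurd (Finset.mem_univ i) h),
      S.diag, one_mul, sub_self]

/-- the local system of linear maps attached to a local system of matrices -/
def conv (S : LocSys p (geo Om) (inert Om f)) : W.LocSys p (f0 f) where
  V := Fin S.r → ℚ_[p]
  rho := crho S
  cont := crho_cont S
  unip := crho_unip S
  unram := by
    intro a ha v hv γ hγ
    rw [crho_apply, S.unram]
    · exact Matrix.toLin'_one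
    · refine ⟨v, hγ, ?_⟩
      cases a with
      | none => exact Or.inl hv
      | some a => exact Or.inr ⟨a, mem_algebraicClosure_iff.1 a.2, not_root ha, hv⟩

theorem conv_level {S : LocSys p (geo Om) (inert Om f)} {n : ℕ} (h : S.Level n) :
    (conv S).Level n := by
  intro γ hγ
  change Matrix.toLin' (S.rho (jj γ)) = 1
  have h1 : ∀ g : GG, g ∈ Gam.lowerCentralSeries n → g ∈ (geo Om).lowerCentralSeries n := by
    rw [geo_eq]
    exact fun _ h => h
  rw [h _ (h1 _ hγ), Matrix.toLin'_one]
  rfl

theorem tensor_level {S T : W.LocSys p (f0 f)} {n : ℕ} (h : S.Level n) (h' : T.Level n) :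
    (S.tensor T).Level n := by
  intro γ hγ
  change TensorProduct.map (S.rho γ) (T.rho γ) = 1
  rw [h γ hγ, h' γ hγ]
  exact TensorProduct.map_id

theorem twist_level {S : W.LocSys p (f0 f)} {n : ℕ} (h : S.Level n) (g : GG) :
    (S.twist g).Level n := by
  intro γ hγ
  change S.rho (W.cj g⁻¹ γ) = 1
  apply h
  rw [W.cj_coe, inv_inv]
  have h1 : (Gam.lowerCentralSeries n).map (MulAut.conj g⁻¹).toMonoidHom =
      Gam.lowerCentralSeries n := by
    rw [Subgroup.map_lowerCentralSeries]
    congr 1
    exact Subgroup.Normal.map_conj_eq Gam g⁻¹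
  rw [← h1]
  refine ⟨γ, hγ, ?_⟩
  change g⁻¹ * (γ : GG) * g⁻¹⁻¹ = _
  rw [inv_inv]

end Y680.V
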