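import Pool.Agent.Y680.V.P3

/-! Comparison of paths. -/

open scoped Pointwise TensorProduct Topology Polynomial

noncomputable section

namespace Y680.V

open Y680.W (GG Gam Qb map_Qb Dec Invt ff0)

section tens

variable {K : Type} [Field K] {m n : ℕ}

/-- the product map on column vectors -/
def ebil (K : Type) [Field K] (m n : ℕ) :
    (Fin m → K) →ₗ[K] (Fin n → K) →ₗ[K] (Fin (m * n) → K) :=
  LinearMap.mk₂ K (fun x y k => x k.divNat * y k.modNat)
    (fun x x' y => by funext k; simp only [Pi.add_apply]; ring)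
    (fun c x y => by funext k; simp only [Pi.smul_apply, smul_eq_mul]; ring)
    (fun x y y' => by funext k; simp only [Pi.add_apply]; ring)
    (fun c x y => by funext k; simp only [Pi.smul_apply, smul_eq_mul]; ring)

/-- the map from the tensor product to column vectors -/
def ee (K : Type) [Field K] (m n : ℕ) : (Fin m → K) ⊗[K] (Fin n → K) →ₗ[K] (Fin (m * n) → K) :=
  TensorProduct.lift (ebil K m n)

theorem ee_tmul (x : Fin m → K) (y : Fin n → K) (k : Fin (m * n)) :
    ee K m n (x ⊗ₜ y) k = x k.divNat * y k.modNat := by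
  unfold ee
  rw [TensorProduct.lift.tmul]
  rfl

theorem ee_surj : Function.Surjective (ee K m n) := by
  rw [← LinearMap.range_eq_top, eq_top_iff, ← (Pi.basisFun K (Fin (m * n))).span_eq,
    Submodule.span_le]
  rintro _ ⟨k, rfl⟩
  refine ⟨Pi.single k.divNat 1 ⊗ₜ Pi.single k.modNat 1, ?_⟩
  funext j
  rw [ee_tmul, Pi.basisFun_apply]
  by_cases h : j = k
  · subst h; simp
  · rw [Pi.single_eq_of_ne h]
    by_cases h1 : j.divNat = k.divNat
    · have h2 : j.modNat ≠ k.modNat := by
        intro h2
        apply h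
        have := (finProdFinEquiv (m := m) (n := n)).symm.injective
          (show finProdFinEquiv.symm j = finProdFinEquiv.symm k from Prod.ext h1 h2)
        exact this
      rw [Pi.single_eq_of_ne h2, mul_zero]
    · rw [Pi.single_eq_of_ne h1, zero_mul]

theorem ee_map (A : Matrix (Fin m) (Fin m) K) (B : Matrix (Fin n) (Fin n) K) :
    ee K m n ∘ₗ TensorProduct.map (Matrix.toLin' A) (Matrix.toLin' B) =
      Matrix.toLin' (kron A B) ∘ₗ ee K m n := by
  apply TensorProduct.ext'
  intro x y
  funext k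
  rw [LinearMap.comp_apply, LinearMap.comp_apply, TensorProduct.map_tmul, ee_tmul,
    Matrix.toLin'_apply, Matrix.toLin'_apply, Matrix.toLin'_apply, Matrix.mulVec, Matrix.mulVec,
    Matrix.mulVec, dotProduct, dotProduct, dotProduct, Finset.sum_mul_sum,
    ← Fintype.sum_prod_type']
  rw [← (finProdFinEquiv (m := m) (n := n)).symm.sum_comp]
  refine Finset.sum_congr rfl fun j _ => ?_
  rw [ee_tmul]
  change A k.divNat j.divNat * x j.divNat * (B k.modNat j.modNat * y j.modNat) =
    A k.divNat j.divNat * B k.modNat j.modNat * (x j.divNat * y j.modNat)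
  ring

end tens

variable {p : ℕ} [Fact p.Prime] {f : ℤ[X]}

/-- matrices of a family of linear transports -/
def tr (h : W.Trans p (f0 f)) :
    Trans p (geo Om) (inert Om f) (ValuationSubring Om) (ValuationSubring Om) :=
  fun S v w => LinearMap.toMatrix' (h (conv S) v w)

theorem toLin'_tr (h : W.Trans p (f0 f)) (S : LocSys p (geo Om) (inert Om f))
    (v w : ValuationSubring Om) : Matrix.toLin' (tr h S v w) = h (conv S) v w :=
  Matrix.toLin'_toMatrix' _

theorem toLin'_inj {m n : ℕ} {A B : Matrix (Fin m) (Fin n) ℚ_[p]}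
    (h : Matrix.toLin' A = Matrix.toLin' B) : A = B := Matrix.toLin'.injective h

/-- the places above a point -/
def Pl (a : Option Qb) : Set (ValuationSubring Om) := {v | W.IsPlace a v}

theorem isPath_tr {n : ℕ} {a b : Option Qb} {h : W.Trans p (f0 f)} (hh : W.IsPath n a b h) :
    IsPath n (fun γ v => (γ : GG) • v) (fun γ v => (γ : GG) • v) (Pl a) (Pl b) (tr h) where
  bij := by
    intro S hS v hv w hw
    have h1 := hh.bij (conv S) (conv_level hS) v w hv hw
    have h2 : IsUnit (h (conv S) v w) := (Module.End.isUnit_iff _).2 h1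
    exact h2.map (LinearMap.toMatrixAlgEquiv' (R := ℚ_[p]) (n := Fin S.r))
  equiv := by
    intro S hS v hv w hw γ δ
    obtain ⟨γ', rfl⟩ := jj_surj γ
    obtain ⟨δ', rfl⟩ := jj_surj δ
    have h1 := hh.equiv (conv S) (conv_level hS) v w hv hw γ' δ'
    apply toLin'_inj
    rw [Matrix.toLin'_mul, Matrix.toLin'_mul, toLin'_tr, toLin'_tr]
    exact h1
  nat := by
    intro S T hS hT s hs v hv w hw
    have h1 := hh.nat (conv S) (conv T) (conv_level hS) (conv_level hT) (Matrix.toLin' s) ?_ v w
      hv hw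
    · apply toLin'_inj
      rw [Matrix.toLin'_mul, Matrix.toLin'_mul, toLin'_tr, toLin'_tr]
      exact h1
    · intro γ
      change Matrix.toLin' s ∘ₗ Matrix.toLin' (S.rho (jj γ)) =
        Matrix.toLin' (T.rho (jj γ)) ∘ₗ Matrix.toLin' s
      rw [← Matrix.toLin'_mul, ← Matrix.toLin'_mul, hs (jj γ) (jj γ) (by
        rw [one_mul, inv_one, mul_one])]
  tens := by
    intro S T hS hT v hv w hw
    have h1 := hh.tens (conv S) (conv T) (conv_level hS) (conv_level hT) v w hv hw
    have hST : (S.tensor T).Level n := by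
      intro γ hγ
      change kron (S.rho γ) (T.rho γ) = 1
      rw [hS γ hγ, hT γ hγ, kron_one]
    have h2 := hh.nat ((conv S).tensor (conv T)) (conv (S.tensor T))
      (tensor_level (conv_level hS) (conv_level hT)) (conv_level hST) (ee ℚ_[p] S.r T.r) ?_ v w
      hv hw
    · have h3 : Matrix.toLin' (tr h (S.tensor T) v w) ∘ₗ ee ℚ_[p] S.r T.r =
          Matrix.toLin' (kron (tr h S v w) (tr h T v w)) ∘ₗ ee ℚ_[p] S.r T.r := by
        rw [← ee_map, toLin'_tr, toLin'_tr, toLin'_tr]
        rw [h1] at h2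
        exact h2.symm
      apply toLin'_inj
      have h4 := (LinearMap.cancel_right ee_surj).1 h3
      exact h4
    · intro γ
      exact ee_map (S.rho (jj γ)) (T.rho (jj γ))
  unit := by
    intro v hv w hw
    have h1 := hh.unit v w hv hw
    have hl1 : (W.LocSys.unit (p := p) (f := f0 f)).Level n := fun _ _ => rfl
    have hl2 : (LocSys.unit (p := p) (Γ := geo Om) (J := inert Om f)).Level n := fun _ _ => rfl
    let u : ℚ_[p] →ₗ[ℚ_[p]] (Fin 1 → ℚ_[p]) := LinearMap.pi fun _ => LinearMap.id
    have hu : Function.Surjective u := by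
      intro x
      refine ⟨x 0, ?_⟩
      funext i
      rw [Subsingleton.elim i 0]
      rfl
    have h2 := hh.nat W.LocSys.unit (conv LocSys.unit) hl1 (conv_level hl2) u ?_ v w hv hw
    · rw [h1] at h2
      have h3 : h (conv LocSys.unit) v w ∘ₗ u = LinearMap.id ∘ₗ u := h2.symm
      have h4 := (LinearMap.cancel_right hu).1 h3
      apply toLin'_inj
      rw [toLin'_tr, h4]
      exact Matrix.toLin'_one.symm
    · intro γ
      change u ∘ₗ LinearMap.id = Matrix.toLin' (1 : Matrix (Fin 1) (Fin 1) ℚ_[p]) ∘ₗ u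
      rw [Matrix.toLin'_one]
      rfl

theorem invt_tr {n : ℕ} {a b : Option Qb} {h : W.Trans p (f0 f)} (hh : W.IsPath n a b h)
    {A : ValuationSubring Qb} (hi : Invt n A a b h) (ha : ∀ g : GG, W.gpt g a = a)
    (hb : ∀ g : GG, W.gpt g b = b) (g : GG) (hg : Dec A g)
    (S T : LocSys p (geo Om) (inert Om f)) (hS : S.Level n) (hT : T.Level n)
    (s : Matrix (Fin T.r) (Fin S.r) ℚ_[p]) (hs : LocSys.Semi g S T s)
    {v w : ValuationSubring Om} (hv : v ∈ Pl a) (hw : w ∈ Pl b) :
    s * tr h S v w = tr h T (g • v) (g • w) * s := by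
  have h1 := hi g hg (conv S) (conv_level hS) v w hv hw
  have hgv : W.IsPlace a (g • v) := by
    have := W.isPlace_smul g hv
    rwa [ha] at this
  have hgw : W.IsPlace b (g • w) := by
    have := W.isPlace_smul g hw
    rwa [hb] at this
  have h2 := hh.nat ((conv S).twist g) (conv T) (twist_level (conv_level hS) g) (conv_level hT)
    (Matrix.toLin' s) ?_ (g • v) (g • w) hgv hgw
  · apply toLin'_inj
    rw [Matrix.toLin'_mul, Matrix.toLin'_mul, toLin'_tr, toLin'_tr]
    rw [h1] at h2
    exact h2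
  · intro γ
    change Matrix.toLin' s ∘ₗ Matrix.toLin' (S.rho (jj (W.cj g⁻¹ γ))) =
      Matrix.toLin' (T.rho (jj γ)) ∘ₗ Matrix.toLin' s
    rw [← Matrix.toLin'_mul, ← Matrix.toLin'_mul, hs (jj (W.cj g⁻¹ γ)) (jj γ)]
    rw [jj_coe, jj_coe, W.cj_coe, inv_inv]
    group

end Y680.V
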