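import Pool.Agent.Y680.V.P4

/-! Places with values in the algebraic closures of local fields; the main theorem. -/

open scoped Pointwise TensorProduct Topology Polynomial NNReal

noncomputable section

namespace Y680.V

open Y680.W (GG Gam Qb map_Qb Dec Invt ff0)

theorem isOpen_eval (x : Om) (P : Set Om) : IsOpen {g : GG | g x ∈ P} := by
  rw [isOpen_iff_mem_nhds]
  intro g0 hg0
  have hx : IsIntegral (RatFunc ℚ) x := (Algebra.IsAlgebraic.isAlgebraic x).isIntegral
  have : FiniteDimensional (RatFunc ℚ) (IntermediateField.adjoin (RatFunc ℚ) {x}) :=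
    IntermediateField.adjoin.finiteDimensional hx
  have h1 := IntermediateField.fixingSubgroup_isOpen (IntermediateField.adjoin (RatFunc ℚ) {x})
  have h2 : IsOpen ((fun g : GG => g0⁻¹ * g) ⁻¹'
      ((IntermediateField.adjoin (RatFunc ℚ) {x}).fixingSubgroup : Set GG)) :=
    h1.preimage (continuous_const.mul continuous_id)
  refine Filter.mem_of_superset (h2.mem_nhds ?_) ?_
  · change g0⁻¹ * g0 ∈ (IntermediateField.adjoin (RatFunc ℚ) {x}).fixingSubgroup
    rw [inv_mul_cancel]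
    exact Subgroup.one_mem _
  · intro g hg
    have h3 : (g0⁻¹ * g) x = x :=
      (IntermediateField.mem_fixingSubgroup_iff _ _).1 hg x
        (IntermediateField.mem_adjoin_simple_self _ x)
    have h4 : g x = g0 x := by
      have h5 := congrArg g0 h3
      rw [← AlgEquiv.mul_apply, mul_inv_cancel_left] at h5
      exact h5
    change g x ∈ P
    rw [h4]
    exact hg0

theorem isClosed_stab (v : ValuationSubring Om) : IsClosed {g : GG | g • v = v} := by
  have e : {g : GG | g • v = v} = ⋂ x : Om, {g : GG | x ∈ v ↔ g x ∈ v} := by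
    ext g
    rw [Set.mem_iInter]
    constructor
    · intro h x
      change g • v = v at h
      change x ∈ v ↔ g x ∈ v
      conv_rhs => rw [← h]
      exact (ValuationSubring.smul_mem_pointwise_smul_iff (g := g) (S := v) (x := x)).symm
    · intro h
      change g • v = v
      ext y
      rw [ValuationSubring.mem_pointwise_smul_iff_inv_smul_mem]
      have h1 := h (g⁻¹ • y)
      have h2 : g (g⁻¹ • y) = y := by
        change (g * g⁻¹) y = y
        rw [mul_inv_cancel]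
        rfl
      change g⁻¹ • y ∈ v ↔ g (g⁻¹ • y) ∈ v at h1
      rw [h2] at h1
      exact h1
  rw [e]
  refine isClosed_iInter fun x => ?_
  by_cases hx : x ∈ v
  · have e2 : {g : GG | x ∈ v ↔ g x ∈ v} = {g : GG | g x ∈ (v : Set Om)ᶜ}ᶜ := by
      ext g
      simp [hx]
    rw [e2]
    exact (isOpen_eval x _).isClosed_compl
  · have e2 : {g : GG | x ∈ v ↔ g x ∈ v} = {g : GG | g x ∈ (v : Set Om)}ᶜ := by
      ext g
      simp [hx]
    rw [e2]
    exact (isOpen_eval x _).isClosed_compl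

/-- the valuation ring of the algebraic numbers defined by an embedding -/
def AA (l : ℕ) [Fact l.Prime] (ι : Qb →+* AlgebraicClosure ℚ_[l]) : ValuationSubring Qb :=
  (Valued.v : Valuation (PadicAlgCl l) ℝ≥0).valuationSubring.comap ι

theorem mem_AA {l : ℕ} [Fact l.Prime] {ι : Qb →+* AlgebraicClosure ℚ_[l]} {z : Qb} :
    z ∈ AA l ι ↔ (Valued.v : Valuation (PadicAlgCl l) ℝ≥0) (ι z) ≤ 1 := Iff.rfl

theorem AA_nonunits {l : ℕ} [Fact l.Prime] (ι : Qb →+* AlgebraicClosure ℚ_[l]) :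
    (l : Qb) ∈ (AA l ι).nonunits := by
  rw [ValuationSubring.mem_nonunits_iff_or]
  right
  rw [mem_AA, map_inv₀, map_natCast, map_inv₀]
  have h1 : (Valued.v : Valuation (PadicAlgCl l) ℝ≥0) (l : PadicAlgCl l) = 1 / (l : ℝ≥0) :=
    PadicAlgCl.valuation_p l
  rw [h1]
  have h2 : (1 : ℝ≥0) < (l : ℝ≥0) := by exact_mod_cast (Fact.out : l.Prime).one_lt
  simpa using h2

theorem AA_dec {l : ℕ} [Fact l.Prime] (ι : Qb →+* AlgebraicClosure ℚ_[l]) (g : GG)
    (σ : AlgebraicClosure ℚ_[l] ≃ₐ[ℚ_[l]] AlgebraicClosure ℚ_[l])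
    (h : ∀ a b : Qb, (b : Om) = g (a : Om) → σ (ι a) = ι b) : Dec (AA l ι) g := by
  intro z
  rw [mem_AA, mem_AA, ← h z ⟨g z, map_Qb g z.2⟩ rfl]
  have h1 : ∀ x : PadicAlgCl l, (Valued.v : Valuation (PadicAlgCl l) ℝ≥0) (σ x) =
      (Valued.v : Valuation (PadicAlgCl l) ℝ≥0) x := by
    intro x
    apply NNReal.eq
    rw [PadicAlgCl.valuation_coe, PadicAlgCl.valuation_coe, ← PadicAlgCl.spectralNorm_eq,
      ← PadicAlgCl.spectralNorm_eq]
    exact (spectralNorm_eq_of_equiv σ x).symm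
  have h2 := h1 (ι z)
  rw [h2]

theorem above_place {l : ℕ} [Fact l.Prime] {ι : Qb →+* AlgebraicClosure ℚ_[l]} {x y : ℤ}
    {z : Option ℚ_[l]} (hz : IsPt z (x : ℚ_[l]) (y : ℚ_[l]))
    {w : Place Om (AlgebraicClosure ℚ_[l])}
    (hw : w ∈ above ι (z.map (algebraMap ℚ_[l] (AlgebraicClosure ℚ_[l])))) :
    w.O ∈ Pl (W.pt x y) := by
  obtain ⟨h1, h2, h3⟩ := hw
  have hq : ∀ q : ℚ, algebraMap ℚ Om q ∈ w.O := by
    intro q
    obtain ⟨h, _⟩ := h1 (algebraMap ℚ Qb q)
    exact h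
  rcases hz with ⟨hy, rfl⟩ | ⟨hy, rfl⟩
  · have hy' : y = 0 := by exact_mod_cast hy
    rw [W.pt, if_pos hy']
    exact ⟨hq, h2 rfl⟩
  · have hy' : y ≠ 0 := by
      rintro rfl
      exact hy (by simp)
    rw [W.pt, if_neg hy']
    refine ⟨hq, ?_⟩
    obtain ⟨ht, ht'⟩ := h3 _ rfl
    obtain ⟨hc, hc'⟩ := h1 ((x : Qb) / (y : Qb))
    have h5 : w.φ (⟨tt Om, ht⟩ - ⟨(((x : Qb) / (y : Qb) : Qb) : Om), hc⟩) = 0 := by
      rw [map_sub, ht', hc', map_div₀, map_intCast, map_intCast, map_div₀, map_intCast,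
        map_intCast, sub_self]
    exact (w.ker _).1 h5

variable {p : ℕ} [Fact p.Prime] {f : ℤ[X]}

theorem toPlace {n : ℕ} {C : Type} [Field C] {ι : Qb →+* C} {z : Option C}
    {Y : Set (ValuationSubring Om)}
    {h : Trans p (geo Om) (inert Om f) (ValuationSubring Om) (ValuationSubring Om)}
    (hh : IsPath n (fun γ v => (γ : GG) • v) (fun γ v => (γ : GG) • v) (infPlaces Om) Y h)
    (hY : ∀ w ∈ above ι z, w.O ∈ Y) :
    IsPathTo (Om := Om) n ι z (fun S v (w : Place Om C) => h S v w.O) where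
  bij := fun S hS v hv w hw => hh.bij S hS v hv w.O (hY w hw)
  equiv := fun S hS v hv w hw γ δ => hh.equiv S hS v hv w.O (hY w hw) γ δ
  nat := fun S T hS hT s hs v hv w hw => hh.nat S T hS hT s hs v hv w.O (hY w hw)
  tens := fun S T hS hT v hv w hw => hh.tens S T hS hT v hv w.O (hY w hw)
  unit := fun v hv w hw => hh.unit v hv w.O (hY w hw)

theorem exists_Pts (x y : ℤ) (hroot : ¬ W.IsRoot (f0 f) (W.pt x y)) :
    ∃ (v0 w0 : ValuationSubring Om) (cv cw : ValuationSubring Om → geo Om),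
      Pts (geo Om) (inert Om f) (infPlaces Om) (Pl (W.pt x y)) v0 w0 cv cw := by
  obtain ⟨v0, hv0⟩ := W.t_EX none
  obtain ⟨w0, hw0⟩ := W.t_EX (W.pt x y)
  have hcv : ∀ v : ValuationSubring Om, ∃ γ : geo Om, v ∈ infPlaces Om → (γ : GG) • v0 = v := by
    intro v
    by_cases h : v ∈ infPlaces Om
    · obtain ⟨δ, h1, _, h3⟩ := W.f_PLACE none 1 (W.loc none) one_pos (pow_one _) v0 v hv0 h
      exact ⟨jj ⟨δ, h1⟩, fun _ => h3⟩
    · exact ⟨1, fun h' => absurd h' h⟩
  have hcw : ∀ v : ValuationSubring Om, ∃ γ : geo Om, v ∈ Pl (W.pt x y) → (γ : GG) • w0 = v := by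
    intro v
    by_cases h : v ∈ Pl (W.pt x y)
    · obtain ⟨δ, h1, _, h3⟩ := W.f_PLACE (W.pt x y) 1 (W.loc (W.pt x y)) one_pos (pow_one _) w0 v
        hw0 h
      exact ⟨jj ⟨δ, h1⟩, fun _ => h3⟩
    · exact ⟨1, fun h' => absurd h' h⟩
  choose cv hcv using hcv
  choose cw hcw using hcw
  refine ⟨v0, w0, cv, cw, ?_, ?_, ?_, ?_, ?_, hv0, hw0, hcv, hcw⟩
  · rw [geo_eq]; infer_instance
  · intro g v hv
    exact W.isPlace_smul g (a := none) hv
  · intro g v hv
    have := W.isPlace_smul g (a := W.pt x y) hv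
    rw [W.gpt_pt] at this
    exact this
  · intro g v hv hg
    exact ⟨v, hg, Or.inl hv⟩
  · intro g v hv hg
    refine ⟨v, hg, ?_⟩
    have hv' : W.IsPlace (W.pt x y) v := hv
    cases h : W.pt x y with
    | none =>
      rw [h] at hv'
      exact Or.inl hv'
    | some a =>
      rw [h] at hv' hroot
      exact Or.inr ⟨a, mem_algebraicClosure_iff.1 a.2, not_root hroot, hv'⟩

theorem isClosed_geo : IsClosed (geo Om : Set GG) := by
  rw [geo_eq]
  exact W.fin_isClosed_Gam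

section main

variable {x y : ℤ} {v0 w0 : ValuationSubring Om} {cv cw : ValuationSubring Om → geo Om}

theorem cocycle_main (H : Pts (geo Om) (inert Om f) (infPlaces Om) (Pl (W.pt x y)) v0 w0 cv cw)
    (n : ℕ) : IsCocycle (p := p) (J := inert Om f) n (infPlaces Om) (co v0 w0 cv cw) :=
  isCocycle_co H isClosed_geo (isClosed_stab v0) (isClosed_stab w0) n

theorem lies_et (H : Pts (geo Om) (inert Om f) (infPlaces Om) (Pl (W.pt x y)) v0 w0 cv cw)
    (n l : ℕ) [Fact l.Prime] {z : Option ℚ_[l]} (hz : IsPt z (x : ℚ_[l]) (y : ℚ_[l])) :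
    Lies (p := p) (f := f) (C := AlgebraicClosure ℚ_[l]) ℚ_[l] n (co v0 w0 cv cw) z := by
  intro ι
  refine ⟨fun S v w => et cv cw S v w.O, toPlace (isPath_et H n) fun w hw => above_place hz hw, ?_⟩
  intro g σ _ S T _ _ s hs u hu v _ w hw
  exact et_co H g S T s hs hu (above_place hz hw)

theorem lies_hl {d : ℕ} {c : ℤ} (hd : 0 < d) (hc : c ≠ 0) {f : ℤ[X]} (hf : f0 f = ff0 d (c : ℚ))
    (H : Pts (geo Om) (inert Om f) (infPlaces Om) (Pl (W.pt 0 1)) v0 w0 cv cw)
    (n l : ℕ) [Fact l.Prime] (hlp : l ≠ p) {z : Option ℚ_[l]}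
    (hz : IsPt z ((1 : ℤ) : ℚ_[l]) ((0 : ℤ) : ℚ_[l])) :
    Lies (p := p) (f := f) (C := AlgebraicClosure ℚ_[l]) ℚ_[l] n (co v0 w0 cv cw) z := by
  intro ι
  obtain ⟨h, hh⟩ : ∃ h : W.Trans p (f0 f), ∀ n, W.IsPath n none (some 0) h ∧
      Invt n (AA l ι) none (some 0) h := by
    rw [hf]
    exact W.exists_path p l d Fact.out hlp hd (c : ℚ) (by exact_mod_cast hc) (AA l ι)
      (AA_nonunits ι)
  obtain ⟨h1, h2⟩ := hh n
  have e1 : W.pt 0 1 = some 0 := W.pt_zero_one
  have e2 : W.pt 1 0 = none := W.pt_one_zero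
  have h3 : IsPath n (fun γ v => (γ : GG) • v) (fun γ v => (γ : GG) • v) (infPlaces Om)
      (Pl (W.pt 0 1)) (tr h) := by
    rw [e1]
    exact isPath_tr h1
  have hab : ∀ w ∈ above ι (z.map (algebraMap ℚ_[l] (AlgebraicClosure ℚ_[l]))),
      w.O ∈ infPlaces Om := by
    intro w hw
    have := above_place hz hw
    rw [e2] at this
    exact this
  refine ⟨fun S v w => hl (tr h) w0 cv cw S v w.O, toPlace (isPath_hl H h3) hab, ?_⟩
  intro g σ hσ S T hS hT s hs u hu v hv w hw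
  refine hl_co H h3 g S T hS hT s hs ?_ hu hv (hab w hw)
  intro v hv w hw
  rw [e1] at hw
  refine invt_tr h1 h2 (fun g => rfl) (fun g => ?_) g (AA_dec ι g σ hσ) S T hS hT s hs hv hw
  rw [← e1, W.gpt_pt]

end main

/-! ### The form -/

theorem form_eq {d : ℕ} (hd : 0 < d) (c : ℤ) {R : Type} [CommRing R] (x y : R) :
    form (Polynomial.X ^ d - Polynomial.C c) x y = x ^ d - c * y ^ d := by
  unfold form
  rw [Polynomial.natDegree_X_pow_sub_C, Finset.sum_range_succ]
  have h1 : ∀ i ∈ Finset.range d, i ≠ 0 →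
      (((Polynomial.X ^ d - Polynomial.C c : ℤ[X]).coeff i : ℤ) : R) * x ^ i * y ^ (d - i) = 0 := by
    intro i hi hi0
    rw [Finset.mem_range] at hi
    rw [Polynomial.coeff_sub, Polynomial.coeff_X_pow, Polynomial.coeff_C, if_neg hi.ne,
      if_neg hi0]
    simp
  rw [Finset.sum_eq_single 0 h1 (fun h => absurd (Finset.mem_range.2 hd) h)]
  rw [Polynomial.coeff_sub, Polynomial.coeff_sub, Polynomial.coeff_X_pow, Polynomial.coeff_X_pow,
    Polynomial.coeff_C, Polynomial.coeff_C, if_neg hd.ne, if_pos rfl, if_pos rfl, if_neg hd.ne']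
  simp
  ring

theorem f0_eq (d : ℕ) (c : ℤ) : f0 (Polynomial.X ^ d - Polynomial.C c) = ff0 d (c : ℚ) := by
  unfold f0 ff0
  rw [Polynomial.map_sub, Polynomial.map_pow, Polynomial.map_X, Polynomial.map_C]
  rfl

theorem admissible_main {d : ℕ} {c : ℤ} {p : ℕ} [Fact p.Prime] (hd : 3 ≤ d) (hc : 2 ≤ |c|)
    (hp : ¬ (p : ℤ) ∣ 2 * d * c) : Admissible (Polynomial.X ^ d - Polynomial.C c) p := by
  have hd0 : d ≠ 0 := by omega
  have hc0 : c ≠ 0 := by
    rintro rfl
    simp at hc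
  refine ⟨Fact.out, ?_, Polynomial.monic_X_pow_sub_C c hd0, ?_, ?_, ?_⟩
  · rintro rfl
    exact hp ⟨d * c, by push_cast; ring⟩
  · rw [Polynomial.natDegree_X_pow_sub_C]; exact hd
  · rw [Polynomial.map_sub, Polynomial.map_pow, Polynomial.map_X, Polynomial.map_C]
    apply Polynomial.separable_X_pow_sub_C
    · exact_mod_cast hd0
    · simpa using hc0
  · rw [Polynomial.map_sub, Polynomial.map_pow, Polynomial.map_X, Polynomial.map_C]
    apply Polynomial.separable_X_pow_sub_C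
    · intro h
      have h1 : (p : ℤ) ∣ d := by
        rw [← ZMod.intCast_zmod_eq_zero_iff_dvd]
        exact_mod_cast h
      exact hp ((h1.mul_left 2).mul_right c)
    · intro h
      have h1 : (p : ℤ) ∣ c := by
        rw [← ZMod.intCast_zmod_eq_zero_iff_dvd]
        simpa using h
      exact hp (h1.mul_left _)

theorem main_theorem (d : ℕ) (c : ℤ) (p : ℕ) [Fact p.Prime] (hd : 3 ≤ d) (hc : 2 ≤ |c|)
    (hp : ¬ (p : ℤ) ∣ 2 * d * c) (n : ℕ) :
    intPts (Polynomial.X ^ d - Polynomial.C c) p ⊂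
      weaklyGlobal (AlgebraicClosure (RatFunc ℚ)) (Polynomial.X ^ d - Polynomial.C c) p n := by
  have hd0 : 0 < d := by omega
  have hc0 : c ≠ 0 := by
    rintro rfl
    simp at hc
  have hcu : ¬ IsUnit c := by
    intro h
    rcases Int.isUnit_iff.1 h with rfl | rfl <;> simp at hc
  have hpc : ¬ (p : ℤ) ∣ c := fun h => hp (h.mul_left _)
  set f : ℤ[X] := Polynomial.X ^ d - Polynomial.C c with hf
  have hf0 : f0 f = ff0 d (c : ℚ) := f0_eq d c
  have hnr : ∀ x y : ℤ, x ^ d - c * y ^ d ≠ 0 → ¬ W.IsRoot (f0 f) (W.pt x y) := by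
    intro x y h
    rw [hf0]
    exact W.not_isRoot_pt hd0 h
  rw [Set.ssubset_iff_of_subset]
  · refine ⟨some 0, ⟨⟨0, 1, ?_, Or.inr ⟨?_, ?_⟩⟩, ?_⟩, ?_⟩
    · rw [form_eq hd0, zero_pow hd0.ne', one_pow, zero_sub, mul_one, IsUnit.neg_iff,
        PadicInt.isUnit_iff, PadicInt.norm_intCast_eq_one_iff]
      exact ((Nat.prime_iff_prime_int.1 Fact.out).coprime_iff_not_dvd.2 hpc).symm
    · simp
    · simp
    · obtain ⟨v0, w0, cv, cw, H⟩ := exists_Pts (f := f) 0 1 (hnr 0 1 (by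
        rw [zero_pow hd0.ne', one_pow, zero_sub, mul_one]
        exact neg_ne_zero.2 hc0))
      refine ⟨co v0 w0 cv cw, cocycle_main H n, lies_et H n p (Or.inr ⟨by simp, by simp⟩), ?_⟩
      intro l _ hlp
      refine ⟨none, ⟨1, 0, ?_, Or.inl ⟨by simp, rfl⟩⟩,
        lies_hl hd0 hc0 hf0 H n l hlp (Or.inl ⟨by simp, rfl⟩)⟩
      rw [form_eq hd0, zero_pow hd0.ne', one_pow, mul_zero, sub_zero]
      exact isUnit_one
    · rintro ⟨x, y, hu, hz⟩
      rw [form_eq hd0] at hu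
      rcases hz with ⟨_, h⟩ | ⟨hy, h⟩
      · exact absurd h (by simp)
      · have h1 : (x : ℚ_[p]) = 0 := by
          have h2 := Option.some.inj h
          rcases div_eq_zero_iff.1 h2.symm with h3 | h3
          · exact h3
          · exact absurd h3 hy
        have h2 : x = 0 := by exact_mod_cast h1
        rw [h2, zero_pow hd0.ne', zero_sub, IsUnit.neg_iff] at hu
        exact hcu (isUnit_of_mul_isUnit_left hu)
  · rintro z ⟨x, y, hu, hz⟩
    rw [form_eq hd0] at hu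
    have hl : ∀ (l : ℕ) [Fact l.Prime], IsUnit (form f (x : ℤ_[l]) (y : ℤ_[l])) := by
      intro l _
      rw [form_eq hd0]
      have := hu.map (Int.castRingHom ℤ_[l])
      simpa using this
    obtain ⟨v0, w0, cv, cw, H⟩ := exists_Pts (f := f) x y (hnr x y hu.ne_zero)
    refine ⟨⟨x, y, hl p, ?_⟩, co v0 w0 cv cw, cocycle_main H n, lies_et H n p hz, ?_⟩
    · push_cast
      exact hz
    · intro l _ _
      by_cases hy : y = 0
      · refine ⟨none, ⟨x, y, hl l, Or.inl ⟨by simp [hy], rfl⟩⟩,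
          lies_et H n l (Or.inl ⟨by simp [hy], rfl⟩)⟩
      · have hy' : (y : ℚ_[l]) ≠ 0 := by exact_mod_cast hy
        refine ⟨some ((x : ℚ_[l]) / (y : ℚ_[l])), ⟨x, y, hl l, Or.inr ⟨?_, ?_⟩⟩,
          lies_et H n l (Or.inr ⟨hy', rfl⟩)⟩
        · push_cast
          exact hy'
        · push_cast
          rfl

end Y680.V
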